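import Pool.Agent.H839.PZ.One

/-!
# The transcendental part of one singular K3 surface and finitely many graph hypersurfaces

Let `S` be **one** singular K3 surface over `ℚ`. The question Q1 for `S` is whether the period of the
regulator of every nonzero `ξ` in `H_M^3(S, ℚ(4))_tr` is a nonzero rational multiple of
`L'(h^2_tr(S), -1)` (`PeriodStatement`).

For a smooth projective scheme `Y` over `ℚ` let `M^m(Y) = H_M^{2m-5}(Y, ℚ(m))`,
`D^m(Y) = H_𝒟^{2m-5}(Y_ℝ, ℝ(m))`, and `r : M^m(Y) → D^m(Y)` the regulator; here `M^4(S) = H_M^3(S, ℚ(4))`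
contains `T = H_M^3(S, ℚ(4))_tr`, and `D^4(S) = H^2(S(ℂ), ℝ(3))^+` contains the real line `P` of the
transcendental classes. The cycles `c` on `S × Y` of the codimension `m - 2` operate by `c_*` on both. Let
`V ⊆ P` be the rational line of the classes whose period is a rational multiple of `L'(h^2_tr(S), -1)`,
`A^m(Y) ⊆ D^m(Y)` the rational subspace generated by the images `c_* V`, and
`B^m(Y) = B_1^m(Y) ⊕ B_2^m(Y)`, where `B_1^m(Y) ⊆ D^m(Y)` is generated by `A^m(Y)` and the `c_* r(x)`, `x` in
`T`, and `B_2^m(Y) ⊆ M^m(Y)` by the `c_* x`, `x` in `T` with `r(x) = 0`. They are additive functors of the Chow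
motive of `Y`, and `A^m(Y) → B^m(Y)` is bijective if and only if `LineStable D m Y` holds. For a separated
scheme `Z` of finite type over `ℚ` with the weight complex `W(Z)` (Gillet, Soulé) let
`A^{m,i}(Z) = H^i(A^m(W(Z)))`, `B^{m,i}(Z) = H^i(B^m(W(Z)))`; `BijAll C Z` says that the maps
`A^{m,i}(Z) → B^{m,i}(Z)` are isomorphisms for all `m` and `i`. (These data are the ones of the library,
`Q68.OV.Line`, where the same is done with cubic hypersurfaces `T(x, y, z) = 1`.)

For a finite graph `G` let `Y_G` be the complement of its graph hypersurface, that is the open subscheme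
of the affine space over `ℚ` of the edge weights where the Kirchhoff polynomial (the weighted number of the
spanning trees, the determinant of the reduced Laplace matrix) is not zero.

**Theorem.** For each `S` there is a finite list `L` of finite simple graphs of maximal degree at most
three, which depends only on `S`, such that the question Q1 has a positive answer for `S` if and only if
the maps `A^{m,i}(Y_G) → B^{m,i}(Y_G)` are isomorphisms for all `m` and `i` and the finitely many graphs `G`
in `L`. If it has, they are isomorphisms for all finite graphs of maximal degree at most three.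
-/

set_option autoImplicit false

open CategoryTheory CategoryTheory.Limits AlgebraicGeometry Pool.Agent.Y116.UV Pool.Agent.Z125.UN
  Pool.Agent.Q193.LT Pool.Agent.Q49.WU Pool.Agent.Q68.OV Pool.Agent.H839.PZ

universe w u

namespace Pool.Agent.Results.MP_870c49_nt.FinitelyManyGraphs

/-- A singular K3 surface `S` over `ℚ`: `M m Y` and `D m Y` are `H_M^{2m-5}(Y, ℚ(m))` and
`H_𝒟^{2m-5}(Y_ℝ, ℝ(m))`, `Cyc m Y` is the type of the cycles of codimension `m - 2` on `S × Y`, `T` and `P`
are `H_M^3(S, ℚ(4))_tr` and `H^2(S(ℂ), ℝ(3))^+_tr`, `per` is the period `(2πi)^{-3} ⟨γ, ·⟩`, and `lval` is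
`L'(h^2_tr(S), -1)`, which is not zero. -/
abbrev SingularData (S : Sch ℚ) := LineData.{w, u} ℚ S 4

/-- **The transcendental part of one singular K3 surface and finitely many graph hypersurfaces.** See the
explanations above; `zero` is the case of dimension zero (Borel). -/
theorem result {S : Sch ℚ} (hS : SmoothProj S) :
    ∃ L : List Gph, ∀ (D : SingularData.{w, u} S) (C : PairData.{w} ℚ (ℤ × ℤ) ℚ), IsLine D →
      IsWeightPair C → WeightGen C →
      (∀ Y, SmoothProj Y → ∀ m, (BijAt C Prod.fst m Y ↔ LineStable D m Y)) →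
      (zero : ∀ Y : Sch ℚ, SmoothProj Y → topologicalKrullDim Y.left ≤ (0 : ℕ) → BijAll C Y) →
      (PeriodStatement D ↔ ∀ g ∈ L, BijAll C (g.co ℚ)) ∧
      (PeriodStatement D → ∀ g : Gph, BijAll C (g.co ℚ)) := by
  obtain ⟨N, G, h⟩ := line_kirch.{w, u} hS 4
  refine ⟨G, fun D C hD hC hg bij zero => ?_⟩
  obtain ⟨_, h2, h3⟩ := h D C hD hC hg bij (point_of_zero hg zero)
  exact ⟨h2 frac_rat, fun hp => (h3 hp).2⟩

end Pool.Agent.Results.MP_870c49_nt.FinitelyManyGraphs
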